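import Mathlib

/-!
# NK-CORE, abstract part: Cauchy integrals of kernels dominated by a weight
-/

set_option autoImplicit false

namespace Pool.Agent.Y180.NK.CoreAbs

open MeasureTheory Set Filter Topology
open scoped InnerProductSpace ENNReal NNReal ComplexConjugate

variable {S : Type} [MeasurableSpace S]

/-- the integral of the absolute value of the Cauchy kernel -/
noncomputable def E (ν : Measure ℝ) (z : ℝ → ℂ) (φ : S → ℂ) (s : S) : ℝ≥0∞ :=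
  ∫⁻ θ, ‖z θ - φ s‖ₑ⁻¹ ∂ν

/-- the Cauchy integral -/
noncomputable def Y (ν : Measure ℝ) (z : ℝ → ℂ) (φ : S → ℂ) (K : ℝ × S → ℂ) (s : S) : ℂ :=
  ∫ θ, K (θ, s) * (z θ - φ s)⁻¹ ∂ν

theorem enorm_inv_le (a : ℂ) : ‖a⁻¹‖ₑ ≤ ‖a‖ₑ⁻¹ := by
  by_cases h : a = 0
  · simp [h]
  · rw [enorm_inv h]

theorem meas_ck {z : ℝ → ℂ} {φ : S → ℂ} (hz : Measurable z) (hφ : Measurable φ) :
    Measurable (fun p : ℝ × S => (z p.1 - φ p.2)⁻¹) :=
  ((hz.comp measurable_fst).sub (hφ.comp measurable_snd)).inv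

theorem meas_E (ν : Measure ℝ) [IsFiniteMeasure ν] {z : ℝ → ℂ} {φ : S → ℂ} (hz : Measurable z)
    (hφ : Measurable φ) : Measurable (E ν z φ) := by
  have h : Measurable (fun p : ℝ × S => ‖z p.1 - φ p.2‖ₑ⁻¹) :=
    ((hz.comp measurable_fst).sub (hφ.comp measurable_snd)).enorm.inv
  exact h.lintegral_prod_left'

/-- the domination of a kernel by the weight -/
structure Dom (W : S → ℝ) (C : ℝ) (K : ℝ × S → ℂ) : Prop where
  meas : Measurable K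
  nn : 0 ≤ C
  le : ∀ p, ‖K p‖ ≤ C * W p.2

theorem enorm_le {W : S → ℝ} {C : ℝ} {K : ℝ × S → ℂ} (hK : Dom W C K) (z : ℝ → ℂ) (φ : S → ℂ)
    (θ : ℝ) (s : S) :
    ‖K (θ, s) * (z θ - φ s)⁻¹‖ₑ ≤ ENNReal.ofReal (C * W s) * ‖z θ - φ s‖ₑ⁻¹ := by
  rw [enorm_mul]
  refine mul_le_mul' ?_ (enorm_inv_le _)
  rw [← ofReal_norm]
  exact ENNReal.ofReal_le_ofReal (hK.le (θ, s))

theorem lint_le (ν : Measure ℝ) [IsFiniteMeasure ν] {z : ℝ → ℂ} {φ : S → ℂ} (hz : Measurable z)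
    {W : S → ℝ} {C : ℝ} {K : ℝ × S → ℂ} (hK : Dom W C K) (s : S) :
    ∫⁻ θ, ‖K (θ, s) * (z θ - φ s)⁻¹‖ₑ ∂ν ≤ ENNReal.ofReal (C * W s) * E ν z φ s := by
  have hm : Measurable (fun θ => ‖z θ - φ s‖ₑ⁻¹) := (hz.sub measurable_const).enorm.inv
  calc ∫⁻ θ, ‖K (θ, s) * (z θ - φ s)⁻¹‖ₑ ∂ν
      ≤ ∫⁻ θ, ENNReal.ofReal (C * W s) * ‖z θ - φ s‖ₑ⁻¹ ∂ν :=
        lintegral_mono (fun θ => enorm_le hK z φ θ s)
    _ = ENNReal.ofReal (C * W s) * E ν z φ s := by rw [lintegral_const_mul _ hm]; rfl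

theorem Y_enorm (ν : Measure ℝ) [IsFiniteMeasure ν] {z : ℝ → ℂ} {φ : S → ℂ} (hz : Measurable z)
    {W : S → ℝ} {C : ℝ} {K : ℝ × S → ℂ} (hK : Dom W C K) (s : S) :
    ‖Y ν z φ K s‖ₑ ≤ ENNReal.ofReal (C * W s) * E ν z φ s :=
  (enorm_integral_le_lintegral_enorm _).trans (lint_le ν hz hK s)

theorem Y_meas (ν : Measure ℝ) [IsFiniteMeasure ν] {z : ℝ → ℂ} {φ : S → ℂ} (hz : Measurable z)
    (hφ : Measurable φ) {W : S → ℝ} {C : ℝ} {K : ℝ × S → ℂ} (hK : Dom W C K) :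
    StronglyMeasurable (Y ν z φ K) := by
  have h : StronglyMeasurable (fun p : ℝ × S => K p * (z p.1 - φ p.2)⁻¹) :=
    (hK.meas.mul (meas_ck hz hφ)).stronglyMeasurable
  exact StronglyMeasurable.integral_prod_left' (f := fun p : ℝ × S => K p * (z p.1 - φ p.2)⁻¹) h

/-- membership in `L²` and the norm from the integral of the square -/
theorem l2 {μ : Measure S} {f : S → ℂ} (hf : AEStronglyMeasurable f μ) {B : ℝ} (hB : 0 ≤ B)
    (h : ∫⁻ s, ‖f s‖ₑ ^ 2 ∂μ ≤ ENNReal.ofReal (B ^ 2)) :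
    ∃ hm : MemLp f 2 μ, ‖hm.toLp f‖ ≤ B := by
  have h2 : eLpNorm f 2 μ ≤ ENNReal.ofReal B := by
    rw [eLpNorm_eq_lintegral_rpow_enorm_toReal (by norm_num) (by norm_num)]
    have e1 : ∫⁻ x, ‖f x‖ₑ ^ (2 : ℝ≥0∞).toReal ∂μ = ∫⁻ s, ‖f s‖ₑ ^ 2 ∂μ := by
      refine lintegral_congr (fun x => ?_)
      rw [ENNReal.toReal_ofNat]
      exact ENNReal.rpow_natCast _ 2
    rw [e1]
    calc (∫⁻ s, ‖f s‖ₑ ^ 2 ∂μ) ^ (1 / (2 : ℝ≥0∞).toReal)
        ≤ (ENNReal.ofReal (B ^ 2)) ^ (1 / (2 : ℝ≥0∞).toReal) :=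
          ENNReal.rpow_le_rpow h (by positivity)
      _ = ENNReal.ofReal B := by
          rw [ENNReal.ofReal_rpow_of_nonneg (by positivity) (by positivity), ENNReal.toReal_ofNat,
            ← Real.sqrt_eq_rpow, Real.sqrt_sq hB]
  have hm : MemLp f 2 μ := ⟨hf, h2.trans_lt ENNReal.ofReal_lt_top⟩
  refine ⟨hm, ?_⟩
  rw [Lp.norm_toLp]
  exact ENNReal.toReal_le_of_le_ofReal hB h2

section

variable {μ : Measure S} [SigmaFinite μ] (ν : Measure ℝ) [IsFiniteMeasure ν] {z : ℝ → ℂ}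
  {φ : S → ℂ} (hz : Measurable z) (hφ : Measurable φ) {W : S → ℝ} (hWm : Measurable W)
  (hW0 : ∀ s, 0 ≤ W s) {A : ℝ} (hA : 0 ≤ A)
  (hWE : ∫⁻ s, ENNReal.ofReal (W s) ^ 2 * E ν z φ s ^ 2 ∂μ ≤ ENNReal.ofReal (A ^ 2))

include hz hφ hWm hWE in
omit [SigmaFinite μ] in
theorem sq_le {C : ℝ} (hC : 0 ≤ C) :
    ∫⁻ s, (ENNReal.ofReal (C * W s) * E ν z φ s) ^ 2 ∂μ ≤ ENNReal.ofReal ((C * A) ^ 2) := by
  have hm : Measurable (fun s => ENNReal.ofReal (W s) ^ 2 * E ν z φ s ^ 2) :=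
    (hWm.ennreal_ofReal.pow_const 2).mul ((meas_E ν hz hφ).pow_const 2)
  have e : ∀ s, (ENNReal.ofReal (C * W s) * E ν z φ s) ^ 2
      = ENNReal.ofReal (C ^ 2) * (ENNReal.ofReal (W s) ^ 2 * E ν z φ s ^ 2) := by
    intro s
    rw [ENNReal.ofReal_mul hC, ENNReal.ofReal_pow hC]
    ring
  calc ∫⁻ s, (ENNReal.ofReal (C * W s) * E ν z φ s) ^ 2 ∂μ
      = ∫⁻ s, ENNReal.ofReal (C ^ 2) * (ENNReal.ofReal (W s) ^ 2 * E ν z φ s ^ 2) ∂μ :=
        lintegral_congr e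
    _ = ENNReal.ofReal (C ^ 2) * ∫⁻ s, (ENNReal.ofReal (W s) ^ 2 * E ν z φ s ^ 2) ∂μ :=
        lintegral_const_mul _ hm
    _ ≤ ENNReal.ofReal (C ^ 2) * ENNReal.ofReal (A ^ 2) := by gcongr
    _ = ENNReal.ofReal ((C * A) ^ 2) := by
        rw [← ENNReal.ofReal_mul (by positivity), mul_pow]

include hz hφ hWm hA hWE in
omit [SigmaFinite μ] in
/-- the Cauchy integral is in `L²` -/
theorem Y_l2 {C : ℝ} {K : ℝ × S → ℂ} (hK : Dom W C K) :
    ∃ hm : MemLp (Y ν z φ K) 2 μ, ‖hm.toLp (Y ν z φ K)‖ ≤ C * A := by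
  refine l2 (Y_meas ν hz hφ hK).aestronglyMeasurable (mul_nonneg hK.nn hA) ?_
  refine le_trans (lintegral_mono (fun s => ?_)) (sq_le ν hz hφ hWm hWE hK.nn)
  exact pow_le_pow_left' (Y_enorm ν hz hK s) 2

include hz hφ hWm hWE in
omit [SigmaFinite μ] in
/-- almost every point is good -/
theorem good : ∀ᵐ s ∂μ, W s ≤ 0 ∨ E ν z φ s < ⊤ := by
  have hm : Measurable (fun s => ENNReal.ofReal (W s) ^ 2 * E ν z φ s ^ 2) :=
    (hWm.ennreal_ofReal.pow_const 2).mul ((meas_E ν hz hφ).pow_const 2)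
  have h1 := ae_lt_top hm (ne_top_of_le_ne_top ENNReal.ofReal_ne_top hWE)
  filter_upwards [h1] with s hs
  by_contra hcon
  push Not at hcon
  obtain ⟨ha, hb⟩ := hcon
  have hb' : E ν z φ s = ⊤ := top_le_iff.mp hb
  rw [hb', ENNReal.top_pow (by norm_num), ENNReal.mul_top] at hs
  · exact lt_irrefl _ hs
  · simp only [ne_eq, OfNat.ofNat_ne_zero, not_false_eq_true, pow_eq_zero_iff,
      ENNReal.ofReal_eq_zero, not_le]
    exact ha

include hz in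
/-- integrability at a good point -/
theorem int_good {s : S} {C : ℝ} {K : ℝ × S → ℂ}
    (hK : Dom W C K) (hs : E ν z φ s < ⊤) :
    Integrable (fun θ => K (θ, s) * (z θ - φ s)⁻¹) ν := by
  have hm : Measurable (fun θ => K (θ, s) * (z θ - φ s)⁻¹) :=
    (hK.meas.comp (measurable_id.prodMk measurable_const)).mul (hz.sub measurable_const).inv
  refine ⟨hm.aestronglyMeasurable, ?_⟩
  rw [hasFiniteIntegral_iff_enorm]
  exact lt_of_le_of_lt (lint_le ν hz hK s) (ENNReal.mul_lt_top ENNReal.ofReal_lt_top hs)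

include hz hφ hWm hWE in
omit [SigmaFinite μ] in
/-- the relation -/
theorem Y_rel {C C' : ℝ} {K K' : ℝ × S → ℂ} (c : ℂ) (hK : Dom W C K) (hK' : Dom W C' K')
    (hKK : ∀ p : ℝ × S, K' p = (z p.1 - c) * K p) :
    ∀ᵐ s ∂μ, (φ s - c) * Y ν z φ K s = Y ν z φ K' s - ∫ θ, K (θ, s) ∂ν := by
  filter_upwards [good ν hz hφ hWm hWE] with s hs
  rcases hs with hs | hs
  · have h0 : ∀ θ, K (θ, s) = 0 := by
      intro θ
      have h1 := hK.le (θ, s)
      have h2 : C * W s ≤ 0 := mul_nonpos_of_nonneg_of_nonpos hK.nn hs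
      exact norm_le_zero_iff.mp (h1.trans h2)
    have h0' : ∀ θ, K' (θ, s) = 0 := fun θ => by rw [hKK, h0, mul_zero]
    simp only [Y, h0, h0', zero_mul, integral_zero, mul_zero, sub_zero]
  · have i1 := int_good ν hz hK hs
    have i2 := int_good ν hz hK' hs
    have hm : Measurable (fun θ => K (θ, s)) :=
      hK.meas.comp (measurable_id.prodMk measurable_const)
    have i3 : Integrable (fun θ => K (θ, s)) ν :=
      (integrable_const (C * W s)).mono' hm.aestronglyMeasurable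
        (Eventually.of_forall (fun θ => hK.le (θ, s)))
    have hne : ∀ᵐ θ ∂ν, z θ - φ s ≠ 0 := by
      have hm2 : Measurable (fun θ => ‖z θ - φ s‖ₑ⁻¹) := (hz.sub measurable_const).enorm.inv
      filter_upwards [ae_lt_top hm2 hs.ne] with θ hθ h0
      rw [h0, enorm_zero, ENNReal.inv_zero] at hθ
      exact lt_irrefl _ hθ
    unfold Y
    rw [← integral_const_mul, ← integral_sub i2 i3]
    refine integral_congr_ae ?_
    filter_upwards [hne] with θ hθ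
    rw [hKK]
    field_simp
    ring

include hz hφ hWm hWE in
/-- integrability on the product -/
theorem int_prod {C : ℝ} {K : ℝ × S → ℂ} (hK : Dom W C K) (v : Lp ℂ 2 μ) :
    Integrable (fun p : ℝ × S => conj (v p.2) * (K p * (z p.1 - φ p.2)⁻¹)) (ν.prod μ) := by
  have hv : Measurable (fun s => (v s : ℂ)) := (Lp.stronglyMeasurable v).measurable
  have hm : Measurable (fun p : ℝ × S => conj (v p.2) * (K p * (z p.1 - φ p.2)⁻¹)) :=
    (Complex.continuous_conj.measurable.comp (hv.comp measurable_snd)).mul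
      (hK.meas.mul (meas_ck hz hφ))
  refine ⟨hm.aestronglyMeasurable, ?_⟩
  rw [hasFiniteIntegral_iff_enorm, lintegral_prod_symm _ hm.enorm.aemeasurable]
  have hvL : ∫⁻ s, ‖v s‖ₑ ^ 2 ∂μ < ⊤ := by
    have h1 := (Lp.memLp v).2
    rw [eLpNorm_eq_lintegral_rpow_enorm_toReal (by norm_num) (by norm_num)] at h1
    have e1 : ∫⁻ x, ‖v x‖ₑ ^ (2 : ℝ≥0∞).toReal ∂μ = ∫⁻ s, ‖v s‖ₑ ^ 2 ∂μ := by
      refine lintegral_congr (fun x => ?_)
      rw [ENNReal.toReal_ofNat]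
      exact ENNReal.rpow_natCast _ 2
    rw [e1] at h1
    rw [ENNReal.rpow_lt_top_iff_of_pos (by rw [ENNReal.toReal_ofNat]; norm_num)] at h1
    exact h1
  calc ∫⁻ s, ∫⁻ θ, ‖conj (v s) * (K (θ, s) * (z θ - φ s)⁻¹)‖ₑ ∂ν ∂μ
      ≤ ∫⁻ s, (‖v s‖ₑ ^ 2 + (ENNReal.ofReal (C * W s) * E ν z φ s) ^ 2) ∂μ := by
        refine lintegral_mono (fun s => ?_)
        have hm3 : Measurable (fun θ => ‖K (θ, s) * (z θ - φ s)⁻¹‖ₑ) :=
          ((hK.meas.comp (measurable_id.prodMk measurable_const)).mul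
            (hz.sub measurable_const).inv).enorm
        have e2 : ∀ θ, ‖conj (v s) * (K (θ, s) * (z θ - φ s)⁻¹)‖ₑ
            = ‖v s‖ₑ * ‖K (θ, s) * (z θ - φ s)⁻¹‖ₑ := by
          intro θ
          rw [enorm_mul]
          congr 1
          exact RCLike.enorm_conj _
        calc ∫⁻ θ, ‖conj (v s) * (K (θ, s) * (z θ - φ s)⁻¹)‖ₑ ∂ν
            = ∫⁻ θ, ‖v s‖ₑ * ‖K (θ, s) * (z θ - φ s)⁻¹‖ₑ ∂ν := lintegral_congr e2
          _ = ‖v s‖ₑ * ∫⁻ θ, ‖K (θ, s) * (z θ - φ s)⁻¹‖ₑ ∂ν := lintegral_const_mul _ hm3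
          _ ≤ ‖v s‖ₑ * (ENNReal.ofReal (C * W s) * E ν z φ s) := by
              gcongr
              exact lint_le ν hz hK s
          _ ≤ ‖v s‖ₑ ^ 2 + (ENNReal.ofReal (C * W s) * E ν z φ s) ^ 2 := by
              rcases le_total (‖v s‖ₑ) (ENNReal.ofReal (C * W s) * E ν z φ s) with h | h
              · refine le_trans (mul_le_mul' h le_rfl) ?_
                rw [← pow_two]
                exact le_add_self
              · refine le_trans (mul_le_mul' le_rfl h) ?_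
                rw [← pow_two]
                exact le_self_add
    _ = ∫⁻ s, ‖v s‖ₑ ^ 2 ∂μ + ∫⁻ s, (ENNReal.ofReal (C * W s) * E ν z φ s) ^ 2 ∂μ :=
        lintegral_add_left (hv.enorm.pow_const 2) _
    _ < ⊤ := ENNReal.add_lt_top.mpr ⟨hvL,
        (sq_le ν hz hφ hWm hWE hK.nn).trans_lt ENNReal.ofReal_lt_top⟩

include hz hφ hWm hWE in
/-- the inner product of the Cauchy integral with a vector -/
theorem Y_inner {C : ℝ} {K : ℝ × S → ℂ} (hK : Dom W C K) (v : Lp ℂ 2 μ) :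
    ∫ s, conj (v s) * Y ν z φ K s ∂μ
      = ∫ θ, ∫ s, conj (v s) * (K (θ, s) * (z θ - φ s)⁻¹) ∂μ ∂ν := by
  have h := int_prod ν hz hφ hWm hWE hK v
  have h2 := integral_integral_swap (μ := ν) (ν := μ)
    (f := fun θ s => conj (v s) * (K (θ, s) * (z θ - φ s)⁻¹)) h
  rw [h2]
  refine integral_congr_ae (Eventually.of_forall (fun s => ?_))
  simp only [Y]
  rw [integral_const_mul]

end

end Pool.Agent.Y180.NK.CoreAbs
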