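import Pool.Agent.Y283.NK.Stm2
import Pool.Agent.Y180.NK.CoreAbs

/-!
# NK-CORE: vectors obtained by integrating the formal local resolvent over a circle
-/

set_option autoImplicit false

namespace Pool.Agent.Y180.NK.CORE

open MeasureTheory Set Metric Filter Topology
open scoped InnerProductSpace ENNReal NNReal ComplexConjugate
open Pool.Agent.Y283.NK Pool.Agent.Y180.NK.CoreAbs

/-- Lebesgue measure on the interval of the angles -/
noncomputable abbrev nu : Measure ℝ := volume.restrict (Ioc (0:ℝ) (2 * Real.pi))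

variable {S : Type} [MeasurableSpace S] {μ : Measure S}

/-- the weight -/
noncomputable def W (u : ℕ → Lp ℂ 2 μ) (x : Lp ℂ 2 μ) (n : ℕ) (s : S) : ℝ :=
  Real.sqrt (‖x s‖ ^ 2 + ∑ j ∈ Finset.range n, ‖u j s‖ ^ 2)

theorem W_nonneg (u : ℕ → Lp ℂ 2 μ) (x : Lp ℂ 2 μ) (n : ℕ) (s : S) : 0 ≤ W u x n s :=
  Real.sqrt_nonneg _

theorem W_meas (u : ℕ → Lp ℂ 2 μ) (x : Lp ℂ 2 μ) (n : ℕ) : Measurable (W u x n) := by
  unfold W
  refine Real.continuous_sqrt.measurable.comp ?_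
  refine ((Lp.stronglyMeasurable x).measurable.norm.pow_const 2).add ?_
  exact Finset.measurable_fun_sum _
    (fun j _ => (Lp.stronglyMeasurable (u j)).measurable.norm.pow_const 2)

theorem W_sq_le (u : ℕ → Lp ℂ 2 μ) (x : Lp ℂ 2 μ) (n : ℕ) (s : S) :
    ENNReal.ofReal (W u x n s) ^ 2 ≤ ‖x s‖ₑ ^ 2 + ∑' j, ‖u j s‖ₑ ^ 2 := by
  have h0 : 0 ≤ ∑ j ∈ Finset.range n, ‖u j s‖ ^ 2 := Finset.sum_nonneg (fun j _ => by positivity)
  rw [← ENNReal.ofReal_pow (W_nonneg u x n s)]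
  unfold W
  rw [Real.sq_sqrt (by positivity), ENNReal.ofReal_add (by positivity) h0,
    ENNReal.ofReal_sum_of_nonneg (fun j _ => by positivity)]
  have e : ∀ a : ℂ, ENNReal.ofReal (‖a‖ ^ 2) = ‖a‖ₑ ^ 2 := by
    intro a
    rw [ENNReal.ofReal_pow (norm_nonneg _), ofReal_norm]
  simp only [e]
  gcongr
  exact ENNReal.sum_le_tsum _

theorem x_le (u : ℕ → Lp ℂ 2 μ) (x : Lp ℂ 2 μ) (n : ℕ) (s : S) : ‖x s‖ ≤ W u x n s := by
  refine Real.le_sqrt_of_sq_le ?_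
  have h0 : 0 ≤ ∑ j ∈ Finset.range n, ‖u j s‖ ^ 2 := Finset.sum_nonneg (fun j _ => by positivity)
  linarith

theorem u_le (u : ℕ → Lp ℂ 2 μ) (x : Lp ℂ 2 μ) (n : ℕ) (s : S) {j : ℕ} (hj : j < n) :
    ‖u j s‖ ≤ W u x n s := by
  refine Real.le_sqrt_of_sq_le ?_
  have h0 : ‖u j s‖ ^ 2 ≤ ∑ j ∈ Finset.range n, ‖u j s‖ ^ 2 :=
    Finset.single_le_sum (f := fun j => ‖u j s‖ ^ 2) (fun i _ => by positivity)
      (Finset.mem_range.mpr hj)
  have h1 : 0 ≤ ‖x s‖ ^ 2 := by positivity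
  linarith

theorem sum_le (u : ℕ → Lp ℂ 2 μ) (x : Lp ℂ 2 μ) (n : ℕ) (s : S) (g : ℕ → ℂ)
    (hg : ∑ j ∈ Finset.range n, ‖g j‖ ^ 2 ≤ 1) :
    ‖∑ j ∈ Finset.range n, g j * u j s‖ ≤ W u x n s := by
  have h0 : 0 ≤ ∑ j ∈ Finset.range n, ‖u j s‖ ^ 2 := Finset.sum_nonneg (fun j _ => by positivity)
  calc ‖∑ j ∈ Finset.range n, g j * u j s‖
      ≤ ∑ j ∈ Finset.range n, ‖g j * u j s‖ := norm_sum_le _ _
    _ = ∑ j ∈ Finset.range n, ‖g j‖ * ‖u j s‖ := Finset.sum_congr rfl (fun j _ => norm_mul _ _)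
    _ ≤ Real.sqrt (∑ j ∈ Finset.range n, ‖g j‖ ^ 2) *
          Real.sqrt (∑ j ∈ Finset.range n, ‖u j s‖ ^ 2) :=
        Real.sum_mul_le_sqrt_mul_sqrt _ _ _
    _ ≤ 1 * W u x n s := by
        refine mul_le_mul ?_ ?_ (Real.sqrt_nonneg _) zero_le_one
        · exact Real.sqrt_le_iff.mpr ⟨zero_le_one, by rw [one_pow]; exact hg⟩
        · refine Real.sqrt_le_sqrt ?_
          have h1 : 0 ≤ ‖x s‖ ^ 2 := by positivity
          linarith
    _ = W u x n s := one_mul _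

/-- the vector which is multiplied by the Cauchy kernel -/
noncomputable def P (u : ℕ → Lp ℂ 2 μ) (x : Lp ℂ 2 μ) (n : ℕ) (t : ℂ) (h : ℝ → ℂ)
    (g : ℕ → ℝ → ℂ) (p : ℝ × S) : ℂ :=
  h p.1 * x p.2 + t * ∑ j ∈ Finset.range n, g j p.1 * u j p.2

theorem P_meas (u : ℕ → Lp ℂ 2 μ) (x : Lp ℂ 2 μ) (n : ℕ) (t : ℂ) {h : ℝ → ℂ}
    {g : ℕ → ℝ → ℂ} (hh : Measurable h) (hg : ∀ j, Measurable (g j)) :
    Measurable (P u x n t h g) := by
  unfold P
  refine ((hh.comp measurable_fst).mul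
    ((Lp.stronglyMeasurable x).measurable.comp measurable_snd)).add ?_
  refine measurable_const.mul (Finset.measurable_fun_sum _ (fun j _ => ?_))
  exact ((hg j).comp measurable_fst).mul
    ((Lp.stronglyMeasurable (u j)).measurable.comp measurable_snd)

theorem P_le (u : ℕ → Lp ℂ 2 μ) (x : Lp ℂ 2 μ) (n : ℕ) (t : ℂ) {h : ℝ → ℂ}
    {g : ℕ → ℝ → ℂ} (hh1 : ∀ θ, ‖h θ‖ ≤ 1)
    (hg1 : ∀ θ, ∑ j ∈ Finset.range n, ‖g j θ‖ ^ 2 ≤ 1) (p : ℝ × S) :
    ‖P u x n t h g p‖ ≤ (1 + ‖t‖) * W u x n p.2 := by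
  unfold P
  have h1 : ‖h p.1 * x p.2‖ ≤ W u x n p.2 := by
    rw [norm_mul]
    calc ‖h p.1‖ * ‖x p.2‖ ≤ 1 * ‖x p.2‖ :=
          mul_le_mul_of_nonneg_right (hh1 _) (norm_nonneg _)
      _ = ‖x p.2‖ := one_mul _
      _ ≤ _ := x_le u x n p.2
  have h2 : ‖t * ∑ j ∈ Finset.range n, g j p.1 * u j p.2‖ ≤ ‖t‖ * W u x n p.2 := by
    rw [norm_mul]
    exact mul_le_mul_of_nonneg_left (sum_le u x n p.2 (fun j => g j p.1) (hg1 p.1)) (norm_nonneg _)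
  calc _ ≤ _ := norm_add_le _ _
    _ ≤ W u x n p.2 + ‖t‖ * W u x n p.2 := add_le_add h1 h2
    _ = _ := by ring

theorem P_dom (u : ℕ → Lp ℂ 2 μ) (x : Lp ℂ 2 μ) (n : ℕ) (t : ℂ) {h : ℝ → ℂ}
    {g : ℕ → ℝ → ℂ} (hh : Measurable h) (hg : ∀ j, Measurable (g j)) (hh1 : ∀ θ, ‖h θ‖ ≤ 1)
    (hg1 : ∀ θ, ∑ j ∈ Finset.range n, ‖g j θ‖ ^ 2 ≤ 1) {k : ℝ → ℂ} (hk : Measurable k)
    {κ : ℝ} (hκ : 0 ≤ κ) (hk1 : ∀ θ, ‖k θ‖ ≤ κ) :
    Dom (W u x n) (κ * (1 + ‖t‖)) (fun p => k p.1 * P u x n t h g p) where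
  meas := (hk.comp measurable_fst).mul (P_meas u x n t hh hg)
  nn := by positivity
  le p := by
    rw [norm_mul, mul_assoc]
    exact mul_le_mul (hk1 _) (P_le u x n t hh1 hg1 p) (norm_nonneg _) hκ

theorem coe_sum (a : ℕ → ℂ) (u : ℕ → Lp ℂ 2 μ) (n : ℕ) :
    (∑ j ∈ Finset.range n, a j • u j : Lp ℂ 2 μ)
      =ᵐ[μ] fun s => ∑ j ∈ Finset.range n, a j * u j s := by
  induction n with
  | zero =>
    simp only [Finset.range_zero, Finset.sum_empty]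
    exact Lp.coeFn_zero _ _ _
  | succ n ih =>
    rw [Finset.sum_range_succ]
    filter_upwards [ih, Lp.coeFn_add (∑ j ∈ Finset.range n, a j • u j) (a n • u n),
      Lp.coeFn_smul (a n) (u n)] with s h1 h2 h3
    rw [h2, Pi.add_apply, h1, h3, Pi.smul_apply, smul_eq_mul, Finset.sum_range_succ]

theorem bdd_int {k h : ℝ → ℂ} (hk : Measurable k) (hh : Measurable h) {κ : ℝ}
    (hk1 : ∀ θ, ‖k θ‖ ≤ κ) (hh1 : ∀ θ, ‖h θ‖ ≤ 1) : Integrable (fun θ => k θ * h θ) nu := by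
  refine (integrable_const κ).mono' (hk.mul hh).aestronglyMeasurable
    (Eventually.of_forall (fun θ => ?_))
  rw [norm_mul]
  calc ‖k θ‖ * ‖h θ‖ ≤ κ * 1 := mul_le_mul (hk1 θ) (hh1 θ) (norm_nonneg _)
        ((norm_nonneg _).trans (hk1 θ))
    _ = κ := mul_one _

theorem g_le {n : ℕ} {g : ℕ → ℝ → ℂ} (hg1 : ∀ θ, ∑ j ∈ Finset.range n, ‖g j θ‖ ^ 2 ≤ 1)
    {j : ℕ} (hj : j < n) (θ : ℝ) : ‖g j θ‖ ≤ 1 := by
  have h0 : ‖g j θ‖ ^ 2 ≤ ∑ j ∈ Finset.range n, ‖g j θ‖ ^ 2 :=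
    Finset.single_le_sum (f := fun j => ‖g j θ‖ ^ 2) (fun i _ => by positivity)
      (Finset.mem_range.mpr hj)
  have h1 := h0.trans (hg1 θ)
  nlinarith [norm_nonneg (g j θ)]

/-- the integral of the vector over the circle -/
theorem int_P (u : ℕ → Lp ℂ 2 μ) (x : Lp ℂ 2 μ) (n : ℕ) (t : ℂ) {h : ℝ → ℂ}
    {g : ℕ → ℝ → ℂ} (hh : Measurable h) (hg : ∀ j, Measurable (g j)) (hh1 : ∀ θ, ‖h θ‖ ≤ 1)
    (hg1 : ∀ θ, ∑ j ∈ Finset.range n, ‖g j θ‖ ^ 2 ≤ 1) {k : ℝ → ℂ} (hk : Measurable k)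
    {κ : ℝ} (hk1 : ∀ θ, ‖k θ‖ ≤ κ) (s : S) :
    ∫ θ, k θ * P u x n t h g (θ, s) ∂nu
      = (∫ θ, k θ * h θ ∂nu) * x s + t * ∑ j ∈ Finset.range n, (∫ θ, k θ * g j θ ∂nu) * u j s := by
  have e : ∀ θ, k θ * P u x n t h g (θ, s)
      = (k θ * h θ) * x s + ∑ j ∈ Finset.range n, (k θ * g j θ) * (t * u j s) := by
    intro θ
    unfold P
    rw [mul_add, Finset.mul_sum, Finset.mul_sum]
    congr 1
    · ring
    · exact Finset.sum_congr rfl (fun j _ => by ring)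
  simp_rw [e]
  rw [integral_add ((bdd_int hk hh hk1 hh1).mul_const _), integral_mul_const,
    integral_finsetSum]
  · rw [Finset.mul_sum]
    congr 1
    refine Finset.sum_congr rfl (fun j _ => ?_)
    rw [integral_mul_const]
    ring
  · intro j hj
    exact (bdd_int hk (hg j) hk1 (g_le hg1 (Finset.mem_range.mp hj))).mul_const _
  · refine integrable_finsetSum _ (fun j hj => ?_)
    exact (bdd_int hk (hg j) hk1 (g_le hg1 (Finset.mem_range.mp hj))).mul_const _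

section step

variable [SigmaFinite μ] {φ : S → ℂ} {N : Lp ℂ 2 μ →L[ℂ] Lp ℂ 2 μ} (hN : IsMul φ N)
  (u v : ℕ → Lp ℂ 2 μ) (n : ℕ) (x : Lp ℂ 2 μ) (t c : ℂ) {z : ℝ → ℂ} (hz : Measurable z) {A : ℝ}
  {h : ℝ → ℂ} {g : ℕ → ℝ → ℂ} (hA : 0 ≤ A)
  (hWE : ∫⁻ s, ENNReal.ofReal (W u x n s) ^ 2 * E nu z φ s ^ 2 ∂μ ≤ ENNReal.ofReal (A ^ 2))
  (hh : Measurable h) (hg : ∀ j, Measurable (g j)) (hh1 : ∀ θ, ‖h θ‖ ≤ 1)
  (hg1 : ∀ θ, ∑ j ∈ Finset.range n, ‖g j θ‖ ^ 2 ≤ 1)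
  (hrel : ∀ᵐ θ ∂nu, ∀ i < n, h θ * ct φ (v i) x (z θ) +
    t * ∑ j ∈ Finset.range n, ct φ (v i) (u j) (z θ) * g j θ = g i θ)

include hN hz hWE hrel hh hg hh1 hg1 in
/-- the inner products -/
theorem inner_v {k : ℝ → ℂ} (hk : Measurable k) {κ : ℝ} (hκ : 0 ≤ κ) (hk1 : ∀ θ, ‖k θ‖ ≤ κ)
    {i : ℕ} (hi : i < n) :
    ∫ s, conj (v i s) * Y nu z φ (fun p => k p.1 * P u x n t h g p) s ∂μ
      = ∫ θ, k θ * g i θ ∂nu := by
  have hφ := hN.meas
  rw [Y_inner nu hz hφ (W_meas u x n) hWE (P_dom u x n t hh hg hh1 hg1 hk hκ hk1) (v i)]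
  refine integral_congr_ae ?_
  have dx : Dom (W u x n) 1 (fun p : ℝ × S => x p.2) :=
    ⟨(Lp.stronglyMeasurable x).measurable.comp measurable_snd, zero_le_one,
      fun p => by rw [one_mul]; exact x_le u x n p.2⟩
  have du : ∀ j < n, Dom (W u x n) 1 (fun p : ℝ × S => u j p.2) := fun j hj =>
    ⟨(Lp.stronglyMeasurable (u j)).measurable.comp measurable_snd, zero_le_one,
      fun p => by rw [one_mul]; exact u_le u x n p.2 hj⟩
  have ix := (int_prod nu hz hφ (W_meas u x n) hWE dx (v i)).prod_right_ae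
  have iu : ∀ᵐ θ ∂nu, ∀ j ∈ Finset.range n,
      Integrable (fun s => conj (v i s) * (u j s * (z θ - φ s)⁻¹)) μ := by
    refine (Filter.eventually_all_finset _).mpr (fun j hj => ?_)
    exact (int_prod nu hz hφ (W_meas u x n) hWE (du j (Finset.mem_range.mp hj)) (v i)).prod_right_ae
  filter_upwards [ix, iu, hrel] with θ h1 h2 h3
  have e : ∀ s, conj (v i s) * (k θ * P u x n t h g (θ, s) * (z θ - φ s)⁻¹)
      = (k θ * h θ) * (conj (v i s) * (x s * (z θ - φ s)⁻¹)) + ∑ j ∈ Finset.range n,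
        (k θ * t * g j θ) * (conj (v i s) * (u j s * (z θ - φ s)⁻¹)) := by
    intro s
    unfold P
    rw [mul_add, Finset.mul_sum, Finset.mul_sum, add_mul, mul_add, Finset.sum_mul, Finset.mul_sum]
    congr 1
    · ring
    · exact Finset.sum_congr rfl (fun j _ => by ring)
  calc ∫ s, conj (v i s) * (k θ * P u x n t h g (θ, s) * (z θ - φ s)⁻¹) ∂μ
      = ∫ s, ((k θ * h θ) * (conj (v i s) * (x s * (z θ - φ s)⁻¹)) + ∑ j ∈ Finset.range n,
        (k θ * t * g j θ) * (conj (v i s) * (u j s * (z θ - φ s)⁻¹))) ∂μ :=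
        integral_congr_ae (Eventually.of_forall e)
    _ = (k θ * h θ) * ct φ (v i) x (z θ) + ∑ j ∈ Finset.range n,
        (k θ * t * g j θ) * ct φ (v i) (u j) (z θ) := by
        rw [integral_add (h1.const_mul _)
          (integrable_finsetSum _ (fun j hj => (h2 j hj).const_mul _)),
          integral_const_mul, integral_finsetSum _ (fun j hj => (h2 j hj).const_mul _)]
        congr 1
        · congr 1
          unfold ct
          exact integral_congr_ae (Eventually.of_forall (fun s => by simp only [mul_assoc]))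
        · refine Finset.sum_congr rfl (fun j _ => ?_)
          rw [integral_const_mul]
          congr 1
          unfold ct
          exact integral_congr_ae (Eventually.of_forall (fun s => by simp only [mul_assoc]))
    _ = k θ * g i θ := by
        rw [← h3 i hi, mul_add, Finset.mul_sum, Finset.mul_sum]
        congr 1
        · ring
        · exact Finset.sum_congr rfl (fun j _ => by ring)

/-- the vector in `L²` -/
noncomputable def X (z : ℝ → ℂ) (φ : S → ℂ) (h : ℝ → ℂ) (g : ℕ → ℝ → ℂ) (k : ℝ → ℂ) :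
    Lp ℂ 2 μ :=
  open Classical in
  if hm : MemLp (Y nu z φ (fun p => k p.1 * P u x n t h g p)) 2 μ then hm.toLp _ else 0

include hN hz hA hWE hh hg hh1 hg1 in
omit [SigmaFinite μ] in
theorem X_coe {k : ℝ → ℂ} (hk : Measurable k) {κ : ℝ} (hκ : 0 ≤ κ) (hk1 : ∀ θ, ‖k θ‖ ≤ κ) :
    X (μ := μ) u n x t z φ h g k =ᵐ[μ] Y nu z φ (fun p => k p.1 * P u x n t h g p) := by
  obtain ⟨hm, -⟩ := Y_l2 nu hz hN.meas (W_meas u x n) hA hWE
    (P_dom u x n t hh hg hh1 hg1 hk hκ hk1)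
  unfold X
  rw [dif_pos hm]
  exact hm.coeFn_toLp

include hN hz hA hWE hh hg hh1 hg1 in
omit [SigmaFinite μ] in
theorem X_norm {k : ℝ → ℂ} (hk : Measurable k) {κ : ℝ} (hκ : 0 ≤ κ) (hk1 : ∀ θ, ‖k θ‖ ≤ κ) :
    ‖X (μ := μ) u n x t z φ h g k‖ ≤ κ * (1 + ‖t‖) * A := by
  obtain ⟨hm, hm2⟩ := Y_l2 nu hz hN.meas (W_meas u x n) hA hWE
    (P_dom u x n t hh hg hh1 hg1 hk hκ hk1)
  unfold X
  rw [dif_pos hm]
  exact hm2

include hN hz hA hWE hrel hh hg hh1 hg1 in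
theorem inner_X {k : ℝ → ℂ} (hk : Measurable k) {κ : ℝ} (hκ : 0 ≤ κ) (hk1 : ∀ θ, ‖k θ‖ ≤ κ)
    {i : ℕ} (hi : i < n) :
    ⟪v i, X (μ := μ) u n x t z φ h g k⟫_ℂ = ∫ θ, k θ * g i θ ∂nu := by
  rw [← inner_v hN u v n x t hz hWE hh hg hh1 hg1 hrel hk hκ hk1 hi, L2.inner_def]
  refine integral_congr_ae ?_
  filter_upwards [X_coe hN u n x t hz hA hWE hh hg hh1 hg1 hk hκ hk1] with s hs
  rw [hs, RCLike.inner_apply, mul_comm]

include hN hz hA hWE hrel hh hg hh1 hg1 in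
/-- one step -/
theorem step {k k' : ℝ → ℂ} (hk : Measurable k) {κ κ' : ℝ} (hκ : 0 ≤ κ) (hk1 : ∀ θ, ‖k θ‖ ≤ κ)
    (hk' : Measurable k') (hκ' : 0 ≤ κ') (hk1' : ∀ θ, ‖k' θ‖ ≤ κ')
    (hkk : ∀ θ, k' θ = (z θ - c) * k θ) :
    (N + t • fr u v n) (X (μ := μ) u n x t z φ h g k) - c • X (μ := μ) u n x t z φ h g k
      = X (μ := μ) u n x t z φ h g k' - (∫ θ, k θ * h θ ∂nu) • x := by
  set Xk := X (μ := μ) u n x t z φ h g k with hXk
  set Xk' := X (μ := μ) u n x t z φ h g k' with hXk'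
  have hfr : fr u v n Xk = ∑ j ∈ Finset.range n, (∫ θ, k θ * g j θ ∂nu) • u j := by
    unfold fr
    rw [_root_.sum_apply]
    refine Finset.sum_congr rfl (fun j hj => ?_)
    rw [ContinuousLinearMap.smulRight_apply, innerSL_apply_apply, hXk,
      inner_X hN u v n x t hz hA hWE hh hg hh1 hg1 hrel hk hκ hk1 (Finset.mem_range.mp hj)]
  rw [_root_.add_apply, _root_.smul_apply, hfr]
  set Q : Lp ℂ 2 μ := ∑ j ∈ Finset.range n, (∫ θ, k θ * g j θ ∂nu) • u j with hQ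
  refine Lp.ext ?_
  have a1 := X_coe hN u n x t hz hA hWE hh hg hh1 hg1 hk hκ hk1
  have a2 := X_coe hN u n x t hz hA hWE hh hg hh1 hg1 hk' hκ' hk1'
  have a3 := Y_rel nu hz hN.meas (W_meas u x n) hWE c
    (P_dom u x n t hh hg hh1 hg1 hk hκ hk1) (P_dom u x n t hh hg hh1 hg1 hk' hκ' hk1')
    (fun p => by rw [hkk, mul_assoc])
  have a4 := coe_sum (fun j => ∫ θ, k θ * g j θ ∂nu) u n
  filter_upwards [a1, a2, a3, a4, hN.eq Xk, Lp.coeFn_sub (N Xk + t • Q) (c • Xk),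
    Lp.coeFn_add (N Xk) (t • Q), Lp.coeFn_smul t Q, Lp.coeFn_smul c Xk,
    Lp.coeFn_sub Xk' ((∫ θ, k θ * h θ ∂nu) • x), Lp.coeFn_smul (∫ θ, k θ * h θ ∂nu) x]
    with s b1 b2 b3 b4 b5 b6 b7 b8 b9 b10 b11
  rw [b6, b10, Pi.sub_apply, Pi.sub_apply, b7, Pi.add_apply, b8, b9, b11, Pi.smul_apply,
    Pi.smul_apply, Pi.smul_apply, b5, smul_eq_mul, smul_eq_mul, smul_eq_mul, hQ, b4, hXk, b1,
    hXk', b2]
  rw [int_P u x n t hh hg hh1 hg1 hk hk1 s] at b3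
  linear_combination b3

end step

theorem main : S_CORE := by
  intro S _ μ _ φ N hN u v n x t c r A h g hr hA hW hh hg hh1 hg1 hrel hzero
  set z : ℝ → ℂ := fun θ => circleMap c r θ with hzdef
  have hz : Measurable z := (continuous_circleMap c r).measurable
  set e : ℝ → ℂ := fun θ => circleMap 0 1 θ with hedef
  have he : Measurable e := (continuous_circleMap 0 1).measurable
  have he1 : ∀ θ, ‖e θ‖ = 1 := fun θ => by
    rw [hedef]
    simp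
  have hze : ∀ θ, z θ - c = r * e θ := by
    intro θ
    simp [hzdef, hedef, circleMap]
  have hWE : ∫⁻ s, ENNReal.ofReal (W u x n s) ^ 2 * E nu z φ s ^ 2 ∂μ
      ≤ ENNReal.ofReal (A ^ 2) := by
    refine le_trans (lintegral_mono (fun s => ?_)) hW
    exact mul_le_mul' (W_sq_le u x n s) le_rfl
  have hrel' : ∀ᵐ θ ∂nu, ∀ i < n, h θ * ct φ (v i) x (z θ) +
    t * ∑ j ∈ Finset.range n, ct φ (v i) (u j) (z θ) * g j θ = g i θ := hrel
  -- the functions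
  set k : ℕ → ℝ → ℂ := fun a θ => e θ * (r * e θ) ^ a with hkdef
  have hk : ∀ a, Measurable (k a) := fun a =>
    he.mul ((measurable_const.mul he).pow_const a)
  have hk1 : ∀ a θ, ‖k a θ‖ ≤ r ^ a := by
    intro a θ
    simp only [hkdef]
    rw [norm_mul, norm_pow, norm_mul, he1, Complex.norm_real, Real.norm_eq_abs, abs_of_pos hr]
    simp
  have hr0 : (r:ℂ) ≠ 0 := by exact_mod_cast hr.ne'
  have hint : ∀ f : ℝ → ℂ, ∫ θ in (0:ℝ)..(2 * Real.pi), f θ = ∫ θ, f θ ∂nu := fun f =>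
    intervalIntegral.integral_of_le Real.two_pi_pos.le
  -- the vectors
  have hr' : (0:ℝ) ≤ 1 / r := by positivity
  have hkr : ∀ θ : ℝ, ‖(fun _ : ℝ => (1 / r : ℂ)) θ‖ ≤ 1 / r := by
    intro θ
    simp only [norm_div, norm_one, Complex.norm_real, Real.norm_eq_abs, abs_of_pos hr, le_refl]
  refine ⟨fun a => X (μ := μ) u n x t z φ h g (k a), - X (μ := μ) u n x t z φ h g (fun _ => 1 / r),
    ?_, ?_, ?_, ?_⟩
  · intro a
    have h1 := step hN u v n x t c hz hA hWE hh hg hh1 hg1 hrel' (hk a) (by positivity : 0 ≤ r ^ a)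
      (hk1 a) (hk (a + 1)) (by positivity : 0 ≤ r ^ (a + 1)) (hk1 (a + 1))
      (fun θ => by simp only [hkdef]; rw [hze]; ring)
    have h2 : ∫ θ, k a θ * h θ ∂nu = 0 := by
      have h3 := hzero a
      rw [hint] at h3
      have h4 : ∀ θ, k a θ * h θ = (r:ℂ) ^ a * (h θ * (circleMap 0 1 θ) ^ (a + 1)) := by
        intro θ
        simp only [hkdef, hedef]
        ring
      simp_rw [h4]
      rw [integral_const_mul, h3, mul_zero]
    rw [h2, zero_smul, sub_zero] at h1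
    exact h1
  · intro a
    have h1 := X_norm hN u n x t hz hA hWE hh hg hh1 hg1 (hk a) (by positivity : 0 ≤ r ^ a) (hk1 a)
    calc _ ≤ _ := h1
      _ = _ := by ring
  · have h1 := step hN u v n x t c hz hA hWE hh hg hh1 hg1 hrel'
      (k := fun _ => (1 / r : ℂ)) (k' := k 0) measurable_const hr' hkr
      (hk 0) (by positivity : 0 ≤ r ^ 0) (hk1 0)
      (fun θ => by
        simp only [hkdef]
        rw [hze]
        field_simp)
    have h2 : ∫ θ, (1 / (r:ℂ)) * h θ ∂nu = (1 / (r:ℂ)) * ∫ θ in (0:ℝ)..(2 * Real.pi), h θ := by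
      rw [integral_const_mul, hint]
    rw [h2] at h1
    rw [map_neg, smul_neg, neg_sub_neg, h1, neg_mul, neg_smul, sub_eq_add_neg]
  · rw [norm_neg]
    have h1 := X_norm hN u n x t hz hA hWE hh hg hh1 hg1 (k := fun _ => (1 / r : ℂ))
      measurable_const hr' hkr
    calc _ ≤ _ := h1
      _ = _ := by ring

end Pool.Agent.Y180.NK.CORE
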